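import Mathlib

/-!
# MP_d0ec72_al: an infinite-dimensional Noetherian residually nilpotent Lie algebra

The positive part of the Witt algebra: the derivations `f d/dX` of `k[X]` with `X ^ 2 ∣ f`, over a
field `k` of characteristic zero.  Subalgebras are finitely generated: if `a` is the least degree
of an element of the subalgebra (as a vector field) and `b ≠ a` is another degree, then `a + b` is
a degree; so finitely many elements realise, after repeated bracketing with an element of degree
`a`, all the degrees of the subalgebra.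
-/

namespace Pool.Agent.Results.MP_d0ec72_al.PositiveWitt

open Polynomial

universe u

/-- `L` satisfies the maximal condition on subalgebras: every ascending chain of subalgebras is
eventually constant. -/
def Noetherian (k L : Type u) [Field k] [LieRing L] [LieAlgebra k L] : Prop :=
  ∀ c : ℕ → LieSubalgebra k L, (∀ n, c n ≤ c (n + 1)) → ∃ n, ∀ m, n ≤ m → c m = c n

/-- `L` is approximable by nilpotent Lie algebras: for every nonzero `x` there is an ideal `I`
with `x ∉ I` and `L ⧸ I` nilpotent. -/
def ResiduallyNilpotent (k L : Type u) [Field k] [LieRing L] [LieAlgebra k L] : Prop :=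
  ∀ x : L, x ≠ 0 → ∃ I : LieIdeal k L, x ∉ I ∧ LieRing.IsNilpotent (L ⧸ I)

section

variable (k : Type u) [Field k]

variable {k} in
theorem der_apply (D : Derivation k k[X] k[X]) (p : k[X]) : D p = derivative p * D X := by
  have h : D = mkDerivation k (D X) := by
    apply Polynomial.derivation_ext
    simp
  conv_lhs => rw [h]
  rw [mkDerivation_apply, smul_eq_mul]

/-- the derivations `f d/dX` with `X ^ 2 ∣ f` -/
def W : LieSubalgebra k (Derivation k k[X] k[X]) where
  carrier := {D | (X : k[X]) ^ 2 ∣ D X}
  add_mem' := fun ha hb => by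
    simp only [Set.mem_ofPred_eq] at *
    simpa using dvd_add ha hb
  zero_mem' := by simp
  smul_mem' := fun c D h => by
    simp only [Set.mem_ofPred_eq] at *
    rw [Derivation.smul_apply, Polynomial.smul_eq_C_mul]
    exact Dvd.dvd.mul_left h _
  lie_mem' := fun {D E} h1 h2 => by
    simp only [Set.mem_ofPred_eq] at *
    rw [Derivation.commutator_apply, der_apply D, der_apply E (D X)]
    exact dvd_sub (Dvd.dvd.mul_left h1 _) (Dvd.dvd.mul_left h2 _)

variable {k}

/-- the coefficient polynomial -/
noncomputable def cf (x : W k) : k[X] := x.1 X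

theorem cf_dvd (x : W k) : (X : k[X]) ^ 2 ∣ cf x := x.2

theorem cf_add (x y : W k) : cf (x + y) = cf x + cf y := rfl
theorem cf_sub (x y : W k) : cf (x - y) = cf x - cf y := rfl
theorem cf_smul (c : k) (x : W k) : cf (c • x) = c • cf x := rfl
theorem cf_zero : cf (0 : W k) = 0 := rfl

theorem cf_inj {x y : W k} (h : cf x = cf y) : x = y := by
  apply Subtype.ext
  apply Polynomial.derivation_ext
  exact h

theorem cf_lie (x y : W k) : cf ⁅x, y⁆ = derivative (cf y) * cf x - derivative (cf x) * cf y := by
  show (⁅x.1, y.1⁆ : Derivation k k[X] k[X]) X = _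
  rw [Derivation.commutator_apply, der_apply x.1, der_apply y.1 (x.1 X)]
  rfl

/-- the element with the given coefficient polynomial -/
noncomputable def mk (f : k[X]) (hf : X ^ 2 ∣ f) : W k := ⟨mkDerivation k f, by
  show X ^ 2 ∣ mkDerivation k f X
  rwa [mkDerivation_X]⟩

theorem cf_mk (f : k[X]) (hf : X ^ 2 ∣ f) : cf (mk f hf) = f := by
  show mkDerivation k f X = f
  rw [mkDerivation_X]

/-- the degree -/
noncomputable def dg (x : W k) : ℕ := (cf x).natDegree

theorem cf_ne {x : W k} (h : x ≠ 0) : cf x ≠ 0 := fun h' => h (cf_inj h')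

theorem two_le_dg {x : W k} (h : x ≠ 0) : 2 ≤ dg x := by
  have := natDegree_le_of_dvd (cf_dvd x) (cf_ne h)
  rw [natDegree_X_pow] at this
  exact this

theorem coeff_lie [CharZero k] {x y : W k} (hx : x ≠ 0) (hy : y ≠ 0) :
    (cf ⁅x, y⁆).coeff (dg x + dg y - 1)
      = ((dg y : k) - dg x) * (cf x).leadingCoeff * (cf y).leadingCoeff := by
  have h1 := two_le_dg hx
  have h2 := two_le_dg hy
  rw [cf_lie, coeff_sub]
  have e1 : dg x + dg y - 1 = (dg y - 1) + dg x := by omega
  have e2 : dg x + dg y - 1 = (dg x - 1) + dg y := by omega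
  have d1 : (derivative (cf y)).natDegree ≤ dg y - 1 := natDegree_derivative_le _
  have d2 : (derivative (cf x)).natDegree ≤ dg x - 1 := natDegree_derivative_le _
  have c1 : (derivative (cf y) * cf x).coeff (dg x + dg y - 1)
      = (derivative (cf y)).coeff (dg y - 1) * (cf x).coeff (dg x) := by
    rw [e1]
    exact coeff_mul_add_eq_of_natDegree_le d1 le_rfl
  have c2 : (derivative (cf x) * cf y).coeff (dg x + dg y - 1)
      = (derivative (cf x)).coeff (dg x - 1) * (cf y).coeff (dg y) := by
    rw [e2]
    exact coeff_mul_add_eq_of_natDegree_le d2 le_rfl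
  rw [c1, c2, coeff_derivative, coeff_derivative]
  have e3 : dg y - 1 + 1 = dg y := by omega
  have e4 : dg x - 1 + 1 = dg x := by omega
  have e5 : ((dg y - 1 : ℕ) : k) + 1 = dg y := by
    have := congrArg (Nat.cast : ℕ → k) e3
    push_cast at this
    exact this
  have e6 : ((dg x - 1 : ℕ) : k) + 1 = dg x := by
    have := congrArg (Nat.cast : ℕ → k) e4
    push_cast at this
    exact this
  rw [e3, e4, e5, e6]
  simp only [leadingCoeff, dg]
  ring

theorem dg_lie_le (x y : W k) : dg ⁅x, y⁆ ≤ dg x + dg y - 1 := by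
  by_cases hx : x = 0
  · subst hx; simp [dg, cf_zero]
  by_cases hy : y = 0
  · subst hy; simp [dg, cf_zero]
  have h1 := two_le_dg hx
  have h2 := two_le_dg hy
  have d1 : (derivative (cf y)).natDegree ≤ dg y - 1 := natDegree_derivative_le _
  have d2 : (derivative (cf x)).natDegree ≤ dg x - 1 := natDegree_derivative_le _
  unfold dg at *
  rw [cf_lie]
  refine (natDegree_sub_le _ _).trans (max_le ?_ ?_)
  · refine natDegree_mul_le.trans ?_
    omega
  · refine natDegree_mul_le.trans ?_
    omega

theorem lie_ne [CharZero k] {x y : W k} (hx : x ≠ 0) (hy : y ≠ 0) (h : dg x ≠ dg y) :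
    ⁅x, y⁆ ≠ 0 ∧ dg ⁅x, y⁆ = dg x + dg y - 1 := by
  have hc := coeff_lie hx hy
  have hne : (cf ⁅x, y⁆).coeff (dg x + dg y - 1) ≠ 0 := by
    rw [hc]
    refine mul_ne_zero (mul_ne_zero ?_ ?_) ?_
    · rw [sub_ne_zero]
      exact fun h' => h (Nat.cast_injective h').symm
    · exact leadingCoeff_ne_zero.2 (cf_ne hx)
    · exact leadingCoeff_ne_zero.2 (cf_ne hy)
  refine ⟨?_, le_antisymm (dg_lie_le x y) (le_natDegree_of_ne_zero hne)⟩
  intro h0
  rw [h0, cf_zero] at hne
  simp at hne

/-- the set of degrees of the nonzero elements of a subalgebra -/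
def Deg (S : LieSubalgebra k (W k)) : Set ℕ := {n | ∃ x ∈ S, x ≠ 0 ∧ dg x = n}

/-- If `M ≤ S` have the same degrees then they are equal. -/
theorem eq_of_deg {M S : LieSubalgebra k (W k)} (h : M ≤ S) (hd : Deg S ⊆ Deg M) : M = S := by
  refine le_antisymm h ?_
  have key : ∀ n : ℕ, ∀ x ∈ S, dg x ≤ n → x ∈ M := by
    intro n
    induction n with
    | zero =>
      intro x hx hn
      by_cases h0 : x = 0
      · rw [h0]; exact M.zero_mem
      · have := two_le_dg h0; omega
    | succ n ih =>
      intro x hx hn
      by_cases h0 : x = 0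
      · rw [h0]; exact M.zero_mem
      obtain ⟨y, hyM, hy0, hyd⟩ := hd ⟨x, hx, h0, rfl⟩
      set c : k := (cf x).leadingCoeff / (cf y).leadingCoeff with hc
      have hcy : (cf y).leadingCoeff ≠ 0 := leadingCoeff_ne_zero.2 (cf_ne hy0)
      have hxy : x - c • y ∈ S := S.sub_mem hx (S.smul_mem c (h hyM))
      have hcf : cf (x - c • y) = cf x - c • cf y := rfl
      have hdeg : dg (x - c • y) ≤ n := by
        have hle : dg (x - c • y) ≤ dg x := by
          unfold dg at *
          rw [hcf]
          refine (natDegree_sub_le _ _).trans (max_le le_rfl ?_)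
          exact (natDegree_smul_le _ _).trans hyd.le
        have hcoef : (cf (x - c • y)).coeff (dg x) = 0 := by
          rw [hcf, coeff_sub, coeff_smul]
          have e1 : (cf x).coeff (dg x) = (cf x).leadingCoeff := rfl
          have e2 : (cf y).coeff (dg x) = (cf y).leadingCoeff := by
            rw [← hyd]; rfl
          rw [e1, e2, smul_eq_mul, hc]
          field_simp
          ring
        by_contra hcon
        push Not at hcon
        have hEq : dg (x - c • y) = dg x := by omega
        have : (cf (x - c • y)) = 0 := by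
          rw [← leadingCoeff_eq_zero]
          show (cf (x - c • y)).coeff (dg (x - c • y)) = 0
          rw [hEq]; exact hcoef
        have hz : dg (x - c • y) = 0 := by unfold dg; rw [this]; simp
        omega
      have hmem := ih _ hxy hdeg
      have : x = (x - c • y) + c • y := by abel
      rw [this]
      exact M.add_mem hmem (M.smul_mem c hyM)
  intro x hx
  exact key _ x hx le_rfl

/-- The chain condition. -/
theorem noeth [CharZero k] : Noetherian k (W k) := by
  intro c hc
  have hmono : Monotone c := monotone_nat_of_le_succ hc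
  by_cases hall : ∀ n, Deg (c n) = ∅
  · refine ⟨0, fun m _ => ?_⟩
    refine (eq_of_deg (hmono (Nat.zero_le m)) ?_).symm
    rw [hall m]; exact Set.empty_subset _
  · push Not at hall
    -- the union of the degrees
    set U : Set ℕ := ⋃ n, Deg (c n) with hU
    have hUne : U.Nonempty := by
      obtain ⟨n, hn⟩ := hall
      obtain ⟨d, hd⟩ := hn
      exact ⟨d, Set.mem_iUnion.2 ⟨n, hd⟩⟩
    have hdm : ∀ n m, n ≤ m → Deg (c n) ⊆ Deg (c m) := by
      rintro n m h d ⟨x, hx, h0, hd⟩
      exact ⟨x, hmono h hx, h0, hd⟩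
    classical
    -- the least degree
    set a := sInf U with ha
    have haU : a ∈ U := Nat.sInf_mem hUne
    have hamin : ∀ b ∈ U, a ≤ b := fun b hb => Nat.sInf_le hb
    obtain ⟨n0, hn0⟩ := Set.mem_iUnion.1 haU
    have ha2 : 2 ≤ a := by
      obtain ⟨x, hx, h0, hd⟩ := hn0
      rw [← hd]; exact two_le_dg h0
    -- closure under adding `a - 1`
    have hstep : ∀ n, n0 ≤ n → ∀ b ∈ Deg (c n), b ≠ a → b + (a - 1) ∈ Deg (c n) := by
      rintro n hn b ⟨y, hy, hy0, hyd⟩ hb
      obtain ⟨x, hx, hx0, hxd⟩ := hdm n0 n hn hn0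
      have := lie_ne hx0 hy0 (by rw [hxd, hyd]; exact fun h => hb h.symm)
      refine ⟨⁅x, y⁆, (c n).lie_mem hx hy, this.1, ?_⟩
      rw [this.2, hxd, hyd]; omega
    have hstep' : ∀ n, n0 ≤ n → ∀ b ∈ Deg (c n), b ≠ a → ∀ j : ℕ, b + j * (a - 1) ∈ Deg (c n) := by
      intro n hn b hb hba j
      have hab : a ≤ b := hamin b (Set.mem_iUnion.2 ⟨n, hb⟩)
      induction j with
      | zero => simpa using hb
      | succ j ih =>
        have := hstep n hn _ ih (by
          have : a < b := lt_of_le_of_ne hab (Ne.symm hba)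
          have h2 : b ≤ b + j * (a - 1) := Nat.le_add_right _ _
          omega)
        have e : b + (j + 1) * (a - 1) = b + j * (a - 1) + (a - 1) := by ring
        rw [e]; exact this
    -- least element of `U ∖ {a}` in every residue class modulo `a - 1`
    let V : ℕ → Set ℕ := fun r => {b | b ∈ U ∧ b ≠ a ∧ b % (a - 1) = r}
    have hV : ∀ r, ∃ N, ∀ b ∈ V r, ∀ n, N ≤ n → b ∈ Deg (c n) := by
      intro r
      by_cases hr : (V r).Nonempty
      · set b := sInf (V r) with hbdef
        have hb : b ∈ V r := Nat.sInf_mem hr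
        obtain ⟨n1, hn1⟩ := Set.mem_iUnion.1 hb.1
        refine ⟨max n0 n1, fun d hd n hn => ?_⟩
        have hbd : b ≤ d := Nat.sInf_le hd
        have hmod : d % (a - 1) = b % (a - 1) := by rw [hd.2.2, hb.2.2]
        have hdvd : (a - 1) ∣ d - b := (Nat.modEq_iff_dvd' hbd).1 (show b % (a-1) = d % (a-1) from hmod.symm)
        obtain ⟨j, hj⟩ := hdvd
        have := hstep' n (le_trans (le_max_left _ _) hn) b
          (hdm n1 n (le_trans (le_max_right _ _) hn) hn1) hb.2.1 j
        have e : b + j * (a - 1) = d := by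
          rw [mul_comm j, ← hj]; omega
        rwa [e] at this
      · refine ⟨0, fun b hb => ?_⟩
        exact absurd ⟨b, hb⟩ hr
    choose N hN using hV
    set M := max n0 ((Finset.range (a - 1)).sup N) with hM
    have hfin : ∀ n, M ≤ n → U ⊆ Deg (c n) := by
      intro n hn b hb
      by_cases hba : b = a
      · rw [hba]; exact hdm n0 n (le_trans (le_max_left _ _) hn) hn0
      · refine hN (b % (a - 1)) b ⟨hb, hba, rfl⟩ n ?_
        refine le_trans ?_ (le_trans (le_max_right _ _) hn)
        exact Finset.le_sup (f := N) (Finset.mem_range.2 (Nat.mod_lt _ (by omega)))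
    refine ⟨M, fun m hm => ?_⟩
    refine (eq_of_deg (hmono hm) ?_).symm
    exact (Set.subset_iUnion (fun n => Deg (c n)) m).trans (hfin M le_rfl)

/-- the ideal of the `f d/dX` with `X ^ (n + 2) ∣ f` -/
def F (n : ℕ) : LieIdeal k (W k) where
  carrier := {x | X ^ (n + 2) ∣ cf x}
  add_mem' := fun {a b} ha hb => by
    simp only [Set.mem_ofPred_eq] at *
    rw [cf_add]; exact dvd_add ha hb
  zero_mem' := by simp [cf_zero]
  smul_mem' := fun c x h => by
    simp only [Set.mem_ofPred_eq] at *
    rw [cf_smul, Polynomial.smul_eq_C_mul]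
    exact Dvd.dvd.mul_left h _
  lie_mem := fun {x m} h => by
    change X ^ (n + 2) ∣ cf m at h
    show X ^ (n + 2) ∣ cf ⁅x, m⁆
    rw [cf_lie]
    obtain ⟨g, hg⟩ := h
    obtain ⟨f, hf⟩ := cf_dvd x
    rw [hg, hf]
    refine dvd_sub ?_ ?_
    · rw [derivative_mul, derivative_X_pow]
      refine ⟨(C ((n + 2 : ℕ) : k)) * X * g * f + X ^ 2 * derivative g * f, ?_⟩
      have : n + 2 - 1 = n + 1 := by omega
      rw [this]
      ring
    · exact Dvd.dvd.mul_left (Dvd.intro _ rfl) _

theorem mem_F {n : ℕ} {x : W k} : x ∈ F (k := k) n ↔ X ^ (n + 2) ∣ cf x := Iff.rfl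

theorem lcs_le (n : ℕ) : LieModule.lowerCentralSeries k (W k) (W k) n ≤ F n := by
  induction n with
  | zero =>
    intro x _
    exact cf_dvd x
  | succ n ih =>
    rw [LieModule.lowerCentralSeries_succ, LieSubmodule.lie_le_iff]
    intro x _ m hm
    have h := ih hm
    rw [mem_F] at h ⊢
    rw [cf_lie]
    obtain ⟨g, hg⟩ := h
    obtain ⟨f, hf⟩ := cf_dvd x
    rw [hg, hf]
    refine dvd_sub ?_ ?_
    · rw [derivative_mul, derivative_X_pow]
      refine ⟨(C ((n + 2 : ℕ) : k)) * g * f + X * derivative g * f, ?_⟩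
      have : n + 2 - 1 = n + 1 := by omega
      rw [this]
      ring
    · rw [derivative_mul, derivative_X_pow]
      refine ⟨(C ((2 : ℕ) : k)) * g * f + X * derivative f * g, ?_⟩
      have : 2 - 1 = 1 := by omega
      rw [this]
      ring

theorem resNilp : ResiduallyNilpotent k (W k) := by
  intro x hx
  refine ⟨F (dg x), ?_, ?_⟩
  · rw [mem_F]
    intro h
    have := natDegree_le_of_dvd h (cf_ne hx)
    rw [natDegree_X_pow] at this
    unfold dg at this
    omega
  · have h1 : LieModule.IsNilpotent (W k) (W k ⧸ F (k := k) (dg x)) :=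
      (LieModule.isNilpotent_quotient_iff k (W k) (W k) _).2 ⟨dg x, lcs_le _⟩
    rw [LieModule.isNilpotent_iff k] at h1
    show LieModule.IsNilpotent (W k ⧸ F (k := k) (dg x)) (W k ⧸ F (k := k) (dg x))
    rw [LieModule.isNilpotent_iff k]
    obtain ⟨j, hj⟩ := h1
    refine ⟨j, ?_⟩
    rw [← LieSubmodule.toSubmodule_inj] at hj ⊢
    rw [← coe_lowerCentralSeries_ideal_quot_eq, hj]
    rfl

theorem infDim : ¬ FiniteDimensional k (W k) := by
  intro h
  have hli : LinearIndependent k (fun n : ℕ => mk (X ^ (n + 2) : k[X]) (pow_dvd_pow X (by omega))) := by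
    let φ : W k →ₗ[k] k[X] :=
      { toFun := cf
        map_add' := cf_add
        map_smul' := cf_smul }
    refine LinearIndependent.of_comp φ ?_
    have : (φ ∘ fun n : ℕ => mk (X ^ (n + 2) : k[X]) (pow_dvd_pow X (by omega)))
        = (fun n : ℕ => (X : k[X]) ^ n) ∘ (fun n => n + 2) := by
      funext n
      exact cf_mk _ (pow_dvd_pow X (by omega))
    rw [this]
    refine LinearIndependent.comp ?_ _ (fun a b h => by simpa using h)
    have := (Polynomial.basisMonomials k).linearIndependent
    simpa [Polynomial.coe_basisMonomials, Polynomial.X_pow_eq_monomial] using this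
  have := hli.finite
  exact not_finite ℕ

end

/-- **MP_d0ec72_al, answered positively.**  Over every field of characteristic zero there is an
infinite-dimensional Lie algebra that satisfies the maximal condition on subalgebras and is
residually nilpotent. -/
theorem result (k : Type u) [Field k] [CharZero k] :
    ∃ (L : Type u) (_ : LieRing L) (_ : LieAlgebra k L),
      ¬ FiniteDimensional k L ∧ Noetherian k L ∧ ResiduallyNilpotent k L :=
  ⟨W k, inferInstance, inferInstance, infDim, noeth, resNilp⟩

end Pool.Agent.Results.MP_d0ec72_al.PositiveWitt
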